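import Pool.Agent.H86.W.Eval

set_option autoImplicit false

/-!
# The numerical checks at the two end points
-/

namespace Pool.Agent.H86.W

/-- First end point: numerator of `q`. -/
def Q1 : ℤ × ℤ := (-5485375019656162809, 5093279894000000000)
/-- First end point: denominator of `q`. -/
def c1 : ℕ := 7485375019656162809
/-- First end point: numerator of `z`. -/
def Z1 : ℤ × ℤ := (-73305252329481265, -8312748192265857)
/-- Second end point: numerator of `q`. -/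
def Q2 : ℤ × ℤ := (-5485375024749442704, 5093279896000000000)
/-- Second end point: denominator of `q`. -/
def c2 : ℕ := 7485375024749442704
/-- Second end point: numerator of `z`. -/
def Z2 : ℤ × ℤ := (-73305252330095198, -8312748186851943)
/-- Denominator of `z`. -/
def d0 : ℕ := 10 ^ 17

/-- Both components are at most `N / M` in absolute value. -/
def small (N M : ℕ) (r : (ℤ × ℤ) × ℕ) : Bool :=
  decide (r.1.1 * M ≤ N * r.2 ∧ -(N * r.2) ≤ r.1.1 * M ∧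
    r.1.2 * M ≤ N * r.2 ∧ -(N * r.2) ≤ r.1.2 * M)

lemma norm_le_of_small {N M : ℕ} {r : (ℤ × ℤ) × ℕ} (hM : 0 < M) (hr : 0 < r.2)
    (h : small N M r = true) : ‖toC r.1 / (r.2 : ℂ)‖ ≤ 2 * (N / M : ℝ) := by
  unfold small at h
  rw [decide_eq_true_eq] at h
  obtain ⟨h1, h2, h3, h4⟩ := h
  have h1' : (r.1.1 : ℝ) * M ≤ N * r.2 := by exact_mod_cast h1
  have h2' : -((N : ℝ) * r.2) ≤ r.1.1 * M := by exact_mod_cast h2
  have h3' : (r.1.2 : ℝ) * M ≤ N * r.2 := by exact_mod_cast h3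
  have h4' : -((N : ℝ) * r.2) ≤ r.1.2 * M := by exact_mod_cast h4
  have hM' : (0 : ℝ) < M := by exact_mod_cast hM
  have hr' : (0 : ℝ) < r.2 := by exact_mod_cast hr
  rw [norm_div, Complex.norm_natCast, div_le_iff₀ hr']
  have h5 : ‖toC r.1‖ ≤ |(r.1.1 : ℝ)| + |(r.1.2 : ℝ)| := Complex.norm_le_abs_re_add_abs_im _
  have h6 : |(r.1.1 : ℝ)| ≤ N / M * r.2 := by
    rw [div_mul_eq_mul_div, le_div_iff₀ hM', ← abs_of_pos hM', ← abs_mul, abs_le]
    exact ⟨h2', h1'⟩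
  have h7 : |(r.1.2 : ℝ)| ≤ N / M * r.2 := by
    rw [div_mul_eq_mul_div, le_div_iff₀ hM', ← abs_of_pos hM', ← abs_mul, abs_le]
    exact ⟨h4', h3'⟩
  linarith

/-- The real part is at most `- N / M`. -/
def reNeg (N M : ℕ) (r : (ℤ × ℤ) × ℕ) : Bool := decide (r.1.1 * M ≤ -(N * r.2))

lemma re_le_of_reNeg {N M : ℕ} {r : (ℤ × ℤ) × ℕ} (hM : 0 < M) (hr : 0 < r.2)
    (h : reNeg N M r = true) : (toC r.1 / (r.2 : ℂ)).re ≤ -(N / M : ℝ) := by
  unfold reNeg at h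
  rw [decide_eq_true_eq] at h
  have h1' : (r.1.1 : ℝ) * M ≤ -(N * r.2) := by exact_mod_cast h
  have hM' : (0 : ℝ) < M := by exact_mod_cast hM
  have hr' : (0 : ℝ) < r.2 := by exact_mod_cast hr
  rw [Complex.div_natCast_re]
  unfold toC
  rw [div_le_iff₀ hr', neg_mul, div_mul_eq_mul_div, ← neg_div, le_div_iff₀ hM']
  exact h1'

/-- Sign condition on `Im (A conj B)`. -/
def crossNeg (M : ℕ) (a b : (ℤ × ℤ) × ℕ) : Bool :=
  decide ((a.1.2 * b.1.1 - a.1.1 * b.1.2) * M ≤ -(a.2 * b.2))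

/-- Sign condition on `Im (A conj B)`. -/
def crossPos (M : ℕ) (a b : (ℤ × ℤ) × ℕ) : Bool :=
  decide ((a.2 * b.2 : ℤ) ≤ (a.1.2 * b.1.1 - a.1.1 * b.1.2) * M)

lemma im_cross (a b : (ℤ × ℤ) × ℕ) :
    ((toC a.1 / (a.2 : ℂ)) * (starRingEnd ℂ) (toC b.1 / (b.2 : ℂ))).im =
      ((a.1.2 : ℝ) * b.1.1 - a.1.1 * b.1.2) / (a.2 * b.2) := by
  unfold toC
  rw [Complex.mul_im, Complex.conj_re, Complex.conj_im, Complex.div_natCast_re,
    Complex.div_natCast_im, Complex.div_natCast_re, Complex.div_natCast_im]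
  simp only
  ring

lemma im_le_of_crossNeg {M : ℕ} {a b : (ℤ × ℤ) × ℕ} (hM : 0 < M) (ha : 0 < a.2) (hb : 0 < b.2)
    (h : crossNeg M a b = true) :
    ((toC a.1 / (a.2 : ℂ)) * (starRingEnd ℂ) (toC b.1 / (b.2 : ℂ))).im ≤ -(1 / M : ℝ) := by
  unfold crossNeg at h
  rw [decide_eq_true_eq] at h
  have h1' : ((a.1.2 : ℝ) * b.1.1 - a.1.1 * b.1.2) * M ≤ -(a.2 * b.2) := by exact_mod_cast h
  have hM' : (0 : ℝ) < M := by exact_mod_cast hM
  have ha' : (0 : ℝ) < a.2 := by exact_mod_cast ha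
  have hb' : (0 : ℝ) < b.2 := by exact_mod_cast hb
  rw [im_cross, div_le_iff₀ (by positivity), neg_mul, div_mul_eq_mul_div, ← neg_div, one_mul,
    le_div_iff₀ hM']
  exact h1'

lemma im_ge_of_crossPos {M : ℕ} {a b : (ℤ × ℤ) × ℕ} (hM : 0 < M) (ha : 0 < a.2) (hb : 0 < b.2)
    (h : crossPos M a b = true) :
    (1 / M : ℝ) ≤ ((toC a.1 / (a.2 : ℂ)) * (starRingEnd ℂ) (toC b.1 / (b.2 : ℂ))).im := by
  unfold crossPos at h
  rw [decide_eq_true_eq] at h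
  have h1' : ((a.2 : ℝ) * b.2) ≤ ((a.1.2 : ℝ) * b.1.1 - a.1.1 * b.1.2) * M := by exact_mod_cast h
  have hM' : (0 : ℝ) < M := by exact_mod_cast hM
  have ha' : (0 : ℝ) < a.2 := by exact_mod_cast ha
  have hb' : (0 : ℝ) < b.2 := by exact_mod_cast hb
  rw [im_cross, le_div_iff₀ (by positivity), div_mul_eq_mul_div, one_mul, div_le_iff₀ hM']
  exact h1'

theorem chk1 : (small 1 (10 ^ 15) (hor (fun _ => 1) Q1 c1 Z1 d0 0 22) &&
    small 1 2 (hor tri Q1 c1 Z1 d0 0 22) &&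
    small 3 2 (hor (fun m => m) Q1 c1 Z1 d0 0 22) &&
    reNeg 13 10 (hor (fun m => m) Q1 c1 Z1 d0 0 22) &&
    crossNeg (2 * 10 ^ 10) (hor tri Q1 c1 Z1 d0 0 22)
      (hor (fun m => m) Q1 c1 Z1 d0 0 22)) = true := by decide +kernel

theorem chk2 : (small 1 (10 ^ 15) (hor (fun _ => 1) Q2 c2 Z2 d0 0 22) &&
    small 1 2 (hor tri Q2 c2 Z2 d0 0 22) &&
    small 3 2 (hor (fun m => m) Q2 c2 Z2 d0 0 22) &&
    crossPos (2 * 10 ^ 10) (hor tri Q2 c2 Z2 d0 0 22)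
      (hor (fun m => m) Q2 c2 Z2 d0 0 22)) = true := by decide +kernel

end Pool.Agent.H86.W
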