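import Pool.Agent.H86.W.Series

set_option autoImplicit false

/-!
# Exact evaluation of truncated series at rational points
-/

namespace Pool.Agent.H86.W

open Pool.Agent.H81.W

/-- Product of Gaussian integers given as pairs. -/
def gm (x y : ℤ × ℤ) : ℤ × ℤ := (x.1 * y.1 - x.2 * y.2, x.1 * y.2 + x.2 * y.1)

/-- Powers of Gaussian integers. -/
def gp (x : ℤ × ℤ) : ℕ → ℤ × ℤ
  | 0 => (1, 0)
  | n + 1 => gm (gp x n) x

/-- The complex number of a pair. -/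
noncomputable def toC (x : ℤ × ℤ) : ℂ := ⟨(x.1 : ℝ), (x.2 : ℝ)⟩

lemma toC_gm (x y : ℤ × ℤ) : toC (gm x y) = toC x * toC y := by
  unfold toC gm
  apply Complex.ext <;> simp

lemma toC_gp (x : ℤ × ℤ) (n : ℕ) : toC (gp x n) = toC x ^ n := by
  induction n with
  | zero => simp [gp, toC, Complex.ext_iff]
  | succ n ih => rw [gp, toC_gm, ih, pow_succ]

/-- Horner evaluation of `∑_{j<k} w(m+j) ∏_{i<j} q^(m+i) z/(m+i+1)` for `q = Q/c`, `z = Z/d`:
numerator and denominator. -/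
def hor (w : ℕ → ℕ) (Q : ℤ × ℤ) (c : ℕ) (Z : ℤ × ℤ) (d : ℕ) : ℕ → ℕ → (ℤ × ℤ) × ℕ
  | _, 0 => ((0, 0), 1)
  | m, k + 1 =>
    let r := hor w Q c Z d (m + 1) k
    let D := c ^ m * d * (m + 1) * r.2
    let h := gm (gm (gp Q m) Z) r.1
    (((w m * D : ℕ) + h.1, h.2), D)

lemma hor_den_pos (w : ℕ → ℕ) (Q : ℤ × ℤ) {c : ℕ} (Z : ℤ × ℤ) {d : ℕ} (hc : 0 < c) (hd : 0 < d)
    (m k : ℕ) : 0 < (hor w Q c Z d m k).2 := by
  induction k generalizing m with
  | zero => simp [hor]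
  | succ k ih =>
    have := ih (m + 1)
    simp only [hor]
    positivity

lemma hor_den_eq (w w' : ℕ → ℕ) (Q : ℤ × ℤ) (c : ℕ) (Z : ℤ × ℤ) (d : ℕ) (m k : ℕ) :
    (hor w Q c Z d m k).2 = (hor w' Q c Z d m k).2 := by
  induction k generalizing m with
  | zero => simp [hor]
  | succ k ih => simp only [hor, ih (m + 1)]

lemma hor_spec (w : ℕ → ℕ) (Q : ℤ × ℤ) {c : ℕ} (Z : ℤ × ℤ) {d : ℕ} (hc : 0 < c) (hd : 0 < d)
    (m k : ℕ) :
    ((toC Q / c) ^ tri m * (toC Z / d) ^ m / (Nat.factorial m : ℂ)) *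
      (toC (hor w Q c Z d m k).1 / ((hor w Q c Z d m k).2 : ℂ)) =
      ∑ j ∈ Finset.Ico m (m + k), term w (toC Q / c) (toC Z / d) j := by
  induction k generalizing m with
  | zero => simp [hor, toC, Complex.ext_iff]
  | succ k ih =>
    have hpos := hor_den_pos w Q Z hc hd (m + 1) k
    have h1 := ih (m + 1)
    have h2 : m + 1 + k = m + (k + 1) := by ring
    rw [h2] at h1
    rw [Finset.sum_eq_sum_Ico_succ_bot (by omega), ← h1]
    set r := hor w Q c Z d (m + 1) k with hr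
    have hc' : (c : ℂ) ≠ 0 := by exact_mod_cast hc.ne'
    have hd' : (d : ℂ) ≠ 0 := by exact_mod_cast hd.ne'
    have hr' : (r.2 : ℂ) ≠ 0 := by exact_mod_cast hpos.ne'
    have hm' : ((m : ℂ) + 1) ≠ 0 := by exact_mod_cast Nat.succ_ne_zero m
    have hf' : ((Nat.factorial m : ℕ) : ℂ) ≠ 0 := by exact_mod_cast (Nat.factorial_pos m).ne'
    have h3 : (hor w Q c Z d m (k + 1)).2 = c ^ m * d * (m + 1) * r.2 := rfl
    have h4 : toC (hor w Q c Z d m (k + 1)).1 =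
        (w m : ℂ) * ((c : ℂ) ^ m * d * (m + 1) * r.2) + toC Q ^ m * toC Z * toC r.1 := by
      have h5 : (hor w Q c Z d m (k + 1)).1 =
          (((w m * (c ^ m * d * (m + 1) * r.2) : ℕ) : ℤ) + (gm (gm (gp Q m) Z) r.1).1,
            (gm (gm (gp Q m) Z) r.1).2) := rfl
      rw [h5, ← toC_gp, ← toC_gm, ← toC_gm]
      unfold toC
      apply Complex.ext
      · have h6 : (w m : ℂ) * ((c : ℂ) ^ m * d * (m + 1) * r.2) =
          (((w m : ℝ) * ((c : ℝ) ^ m * d * (m + 1) * r.2) : ℝ) : ℂ) := by push_cast; ring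
        rw [Complex.add_re, h6, Complex.ofReal_re]
        push_cast
        ring
      · simp only [Complex.add_im]
        have h6 : (w m : ℂ) * ((c : ℂ) ^ m * d * (m + 1) * r.2) =
          (((w m : ℝ) * ((c : ℝ) ^ m * d * (m + 1) * r.2) : ℝ) : ℂ) := by push_cast; ring
        rw [h6, Complex.ofReal_im, zero_add]
    rw [h4, h3]
    unfold term
    rw [tri_succ, Nat.factorial_succ]
    obtain ⟨q, hq⟩ : ∃ q, q = toC Q / c := ⟨_, rfl⟩
    obtain ⟨z, hz⟩ : ∃ z, z = toC Z / d := ⟨_, rfl⟩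
    have hq2 : toC Q = q * c := by rw [hq]; field_simp
    have hz2 : toC Z = z * d := by rw [hz]; field_simp
    rw [← hq, ← hz, hq2, hz2]
    push_cast
    field_simp
    ring

lemma hor_eval (w : ℕ → ℕ) (Q : ℤ × ℤ) {c : ℕ} (Z : ℤ × ℤ) {d : ℕ} (hc : 0 < c) (hd : 0 < d)
    (k : ℕ) : ∑ j ∈ Finset.range k, term w (toC Q / c) (toC Z / d) j =
      toC (hor w Q c Z d 0 k).1 / ((hor w Q c Z d 0 k).2 : ℂ) := by
  have h := hor_spec w Q Z hc hd 0 k
  rw [Finset.range_eq_Ico]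
  simpa [tri] using h.symm

end Pool.Agent.H86.W
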