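import Pool.Agent.H86.W.Checks

set_option autoImplicit false

/-!
# Module A for MP_7ded08_an: existence of the critical pair

The zero `Z(s)` of `phi (q(s)) ·` near `z0` depends continuously on the point `q(s)` of the unit
circle, and `Im (A conj B)` changes sign between two explicit points.
-/

namespace Pool.Agent.H86.W

open Pool.Agent.H81.W Complex

/-- `phi` in terms of `Phi`. -/
noncomputable def P (q z : ℂ) : ℂ := Phi (fun _ => 1) q z

lemma phi_eq (q z : ℂ) : phi q z = P q z := by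
  unfold phi P Phi term tri
  congr 1
  funext n
  simp

lemma alpha_eq (z q : ℂ) (n : ℕ) :
    alpha z q n = -(q ^ tri (n + 1) * z ^ (n + 1) / (Nat.factorial (n + 1) : ℂ)) := by
  unfold alpha tri
  rw [Nat.add_sub_cancel, mul_comm (n + 1) n, mul_comm (z ^ (n + 1))]

lemma sumA_eq {q z : ℂ} (hq : ‖q‖ ≤ 1) (hz : ‖z‖ ≤ 1) :
    ∑' n : ℕ, ((n * (n + 1) / 2 : ℕ) : ℂ) * alpha z q n = -Phi tri q z := by
  unfold Phi
  rw [(summable_term wt_tri hq hz).tsum_eq_zero_add]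
  have h0 : term tri q z 0 = 0 := by simp [term, tri]
  rw [h0, zero_add, ← tsum_neg]
  congr 1
  funext n
  rw [alpha_eq]
  unfold term
  have h1 : tri (n + 1) = n * (n + 1) / 2 := by
    unfold tri
    rw [Nat.add_sub_cancel, mul_comm]
  rw [← h1]
  ring

lemma sumB_eq {q z : ℂ} (hq : ‖q‖ ≤ 1) (hz : ‖z‖ ≤ 1) :
    ∑' n : ℕ, ((n + 1 : ℕ) : ℂ) * alpha z q n = -Phi (fun m => m) q z := by
  unfold Phi
  rw [(summable_term wt_id hq hz).tsum_eq_zero_add]
  have h0 : term (fun m => m) q z 0 = 0 := by simp [term]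
  rw [h0, zero_add, ← tsum_neg]
  congr 1
  funext n
  rw [alpha_eq]
  unfold term
  ring

/-- Rational parametrisation of the unit circle. -/
noncomputable def qs (s : ℝ) : ℂ := (1 + s * I) / (1 - s * I)

lemma one_sub_ne (s : ℝ) : (1 : ℂ) - s * I ≠ 0 := by
  intro h
  have := congrArg Complex.re h
  simp at this

lemma norm_qs (s : ℝ) : ‖qs s‖ = 1 := by
  unfold qs
  have h : (1 : ℂ) + s * I = (starRingEnd ℂ) (1 - s * I) := by simp
  rw [norm_div, h, Complex.norm_conj, div_self]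
  exact norm_ne_zero_iff.mpr (one_sub_ne s)

lemma qs_dist {s s' : ℝ} (hs : 5 / 2 ≤ s) (hs' : 5 / 2 ≤ s') :
    ‖qs s - qs s'‖ ≤ |s - s'| / 3 := by
  have h1 : qs s - qs s' = 2 * I * ((s - s' : ℝ) : ℂ) / ((1 - s * I) * (1 - s' * I)) := by
    unfold qs
    rw [div_sub_div _ _ (one_sub_ne s) (one_sub_ne s')]
    push_cast
    ring
  have h2 : ∀ t : ℝ, 5 / 2 ≤ t → 5 / 2 ≤ ‖(1 : ℂ) - t * I‖ := by
    intro t ht
    have h3 := Complex.abs_im_le_norm ((1 : ℂ) - t * I)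
    simp only [Complex.sub_im, Complex.one_im, Complex.mul_im, Complex.ofReal_re, Complex.I_im,
      Complex.ofReal_im, Complex.I_re, mul_one, mul_zero, add_zero, zero_sub, abs_neg] at h3
    exact ht.trans ((le_abs_self t).trans h3)
  rw [h1, norm_div, norm_mul, norm_mul, norm_mul, Complex.norm_I, Complex.norm_real,
    Real.norm_eq_abs, mul_one, Complex.norm_ofNat]
  have h3 := h2 s hs
  have h4 := h2 s' hs'
  have h5 : (5 / 2 : ℝ) * (5 / 2) ≤ ‖(1 : ℂ) - s * I‖ * ‖(1 : ℂ) - s' * I‖ := by gcongr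
  rw [div_le_div_iff₀ (by linarith) (by norm_num)]
  nlinarith [abs_nonneg (s - s')]

/-- Left end of the parameter interval. -/
noncomputable def s1 : ℝ := 2546639947 / 10 ^ 9
/-- Right end of the parameter interval. -/
noncomputable def s2 : ℝ := 2546639948 / 10 ^ 9

lemma qs_s1 : qs s1 = toC Q1 / c1 := by
  unfold qs
  rw [div_eq_div_iff (one_sub_ne _) (by norm_num [c1])]
  unfold toC Q1 c1 s1
  apply Complex.ext <;> norm_num

lemma qs_s2 : qs s2 = toC Q2 / c2 := by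
  unfold qs
  rw [div_eq_div_iff (one_sub_ne _) (by norm_num [c2])]
  unfold toC Q2 c2 s2
  apply Complex.ext <;> norm_num

/-- Approximate zero at the left end. -/
noncomputable def za : ℂ := toC Z1 / d0
/-- Approximate zero at the right end. -/
noncomputable def zb : ℂ := toC Z2 / d0

lemma za_eq : za = ⟨-73305252329481265 / 10 ^ 17, -8312748192265857 / 10 ^ 17⟩ := by
  unfold za toC Z1 d0
  apply Complex.ext
  · rw [Complex.div_natCast_re]; norm_num
  · rw [Complex.div_natCast_im]; norm_num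

lemma zb_eq : zb = ⟨-73305252330095198 / 10 ^ 17, -8312748186851943 / 10 ^ 17⟩ := by
  unfold zb toC Z2 d0
  apply Complex.ext
  · rw [Complex.div_natCast_re]; norm_num
  · rw [Complex.div_natCast_im]; norm_num

lemma norm_za : ‖za‖ ≤ 9 / 10 := by
  refine (Complex.norm_le_abs_re_add_abs_im _).trans ?_
  rw [za_eq]
  norm_num [abs_of_neg, abs_of_nonneg]

lemma norm_zb : ‖zb‖ ≤ 9 / 10 := by
  refine (Complex.norm_le_abs_re_add_abs_im _).trans ?_
  rw [zb_eq]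
  norm_num [abs_of_neg, abs_of_nonneg]

lemma zb_sub_za : ‖zb - za‖ ≤ 1 / 10 ^ 9 := by
  refine (Complex.norm_le_abs_re_add_abs_im _).trans ?_
  rw [za_eq, zb_eq]
  norm_num [abs_of_neg, abs_of_nonneg]

lemma za_sub_z0 : ‖za - z0‖ ≤ 1 / 10 ^ 9 := by
  refine (Complex.norm_le_abs_re_add_abs_im _).trans ?_
  rw [za_eq]
  unfold z0
  norm_num [abs_of_neg, abs_of_nonneg]

lemma qs_s1_sub_q0 : ‖qs s1 - q0‖ ≤ 1 / 10 ^ 9 := by
  refine (Complex.norm_le_abs_re_add_abs_im _).trans ?_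
  rw [qs_s1]
  unfold q0 toC Q1 c1
  rw [Complex.sub_re, Complex.sub_im, Complex.div_natCast_re, Complex.div_natCast_im]
  norm_num [abs_of_neg, abs_of_nonneg]

/-! ### Consequences of the numerical checks -/

lemma c1_pos : 0 < c1 := by unfold c1; norm_num
lemma c2_pos : 0 < c2 := by unfold c2; norm_num
lemma d0_pos : 0 < d0 := by unfold d0; norm_num

/-- Left end point of `q`. -/
noncomputable def qa : ℂ := toC Q1 / c1
/-- Right end point of `q`. -/
noncomputable def qb : ℂ := toC Q2 / c2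

lemma norm_qa : ‖qa‖ = 1 := by unfold qa; rw [← qs_s1]; exact norm_qs _
lemma norm_qb : ‖qb‖ = 1 := by unfold qb; rw [← qs_s2]; exact norm_qs _

lemma P_qa_za : ‖P qa za‖ ≤ 3 / 10 ^ 15 := by
  have h := chk1
  simp only [Bool.and_eq_true] at h
  obtain ⟨⟨⟨⟨h1, -⟩, -⟩, -⟩, -⟩ := h
  have h2 := norm_le_of_small (by norm_num)
    (hor_den_pos (fun _ => 1) Q1 Z1 c1_pos d0_pos 0 22) h1
  have h3 := hor_eval (fun _ => 1) Q1 Z1 c1_pos d0_pos 22
  rw [← h3] at h2
  have h4 := Phi_tail wt_one (q := qa) (z := za) norm_qa.le (norm_za.trans (by norm_num))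
  have h5 : P qa za = (Phi (fun _ => 1) qa za - ∑ m ∈ Finset.range 22, term (fun _ => 1) qa za m) +
      ∑ m ∈ Finset.range 22, term (fun _ => 1) qa za m := by unfold P; ring
  rw [h5]
  refine (norm_add_le _ _).trans ((add_le_add h4 h2).trans ?_)
  norm_num

lemma P_qb_zb : ‖P qb zb‖ ≤ 3 / 10 ^ 15 := by
  have h := chk2
  simp only [Bool.and_eq_true] at h
  obtain ⟨⟨⟨h1, -⟩, -⟩, -⟩ := h
  have h2 := norm_le_of_small (by norm_num)
    (hor_den_pos (fun _ => 1) Q2 Z2 c2_pos d0_pos 0 22) h1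
  have h3 := hor_eval (fun _ => 1) Q2 Z2 c2_pos d0_pos 22
  rw [← h3] at h2
  have h4 := Phi_tail wt_one (q := qb) (z := zb) norm_qb.le (norm_zb.trans (by norm_num))
  have h5 : P qb zb = (Phi (fun _ => 1) qb zb - ∑ m ∈ Finset.range 22, term (fun _ => 1) qb zb m) +
      ∑ m ∈ Finset.range 22, term (fun _ => 1) qb zb m := by unfold P; ring
  rw [h5]
  refine (norm_add_le _ _).trans ((add_le_add h4 h2).trans ?_)
  norm_num

/-- The linear coefficient. -/
noncomputable def cc : ℂ := dphi qa za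

lemma cc_ge : 129 / 100 ≤ ‖cc‖ := by
  have h := chk1
  simp only [Bool.and_eq_true] at h
  obtain ⟨⟨⟨⟨-, -⟩, -⟩, h1⟩, -⟩ := h
  have h2 := re_le_of_reNeg (by norm_num)
    (hor_den_pos (fun m => m) Q1 Z1 c1_pos d0_pos 0 22) h1
  have h3 := hor_eval (fun m => m) Q1 Z1 c1_pos d0_pos 22
  rw [← h3] at h2
  have h4 := Phi_tail wt_id (q := qa) (z := za) norm_qa.le (norm_za.trans (by norm_num))
  have h5 : (13 / 10 : ℝ) ≤ ‖∑ m ∈ Finset.range 22, term (fun m => m) qa za m‖ := by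
    refine le_trans ?_ (Complex.abs_re_le_norm _)
    refine le_trans ?_ (neg_le_abs _)
    have h2' : (∑ m ∈ Finset.range 22, term (fun m => m) qa za m).re ≤ -((13 : ℕ) / (10 : ℕ) : ℝ) :=
      h2
    push_cast at h2'
    linarith
  have h6 : ‖∑ m ∈ Finset.range 22, term (fun m => m) qa za m‖ ≤
      ‖Phi (fun m => m) qa za‖ + 1 / 10 ^ 15 := by
    have h7 : ∑ m ∈ Finset.range 22, term (fun m => m) qa za m = Phi (fun m => m) qa za -
      (Phi (fun m => m) qa za - ∑ m ∈ Finset.range 22, term (fun m => m) qa za m) := by ring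
    rw [h7]
    exact (norm_sub_le _ _).trans (by linarith)
  have h8 := dphi_mul (q := qa) (z := za) norm_qa.le (norm_za.trans (by norm_num))
  have h9 : ‖Phi (fun m => m) qa za‖ ≤ ‖cc‖ := by
    have h11 : ‖Phi (fun m => m) qa za‖ = ‖cc‖ * ‖za‖ := by rw [← h8, norm_mul]; rfl
    rw [h11]
    have h12 : ‖za‖ ≤ 1 := norm_za.trans (by norm_num)
    exact mul_le_of_le_one_right (norm_nonneg _) h12
  have h10 : (1 : ℝ) / 10 ^ 15 ≤ 1 / 100 := by norm_num
  linarith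

lemma cc_ne : cc ≠ 0 := by
  intro h
  have := cc_ge
  rw [h, norm_zero] at this
  norm_num at this

/-! ### The zero near `za` -/

lemma norm_le_of_near {z : ℂ} (hz : ‖z - za‖ ≤ 9 / 10 ^ 7) : ‖z‖ ≤ 1 := by
  have h : z = (z - za) + za := by ring
  rw [h]
  refine (norm_add_le _ _).trans ?_
  have := norm_za
  have h2 : (9 : ℝ) / 10 ^ 7 ≤ 1 / 10 := by norm_num
  linarith

lemma approx {q z z' : ℂ} (hq : ‖q‖ ≤ 1) (hqq : ‖q - qa‖ ≤ 4 / 10 ^ 10)
    (hz : ‖z - za‖ ≤ 9 / 10 ^ 7) (hz' : ‖z' - za‖ ≤ 9 / 10 ^ 7) :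
    ‖P q z - P q z' - cc * (z - z')‖ ≤ 1 / 1000 * ‖z - z'‖ := by
  have h := Phi_approx (q1 := qa) (z1 := za) hq (norm_le_of_near hz) (norm_le_of_near hz')
    norm_qa.le (norm_za.trans (by norm_num)) hz hz'
  refine h.trans ?_
  rw [← mul_assoc]
  apply mul_le_mul_of_nonneg_right _ (norm_nonneg _)
  calc 840 * (9 / 10 ^ 7 + ‖q - qa‖) ≤ 840 * (9 / 10 ^ 7 + 4 / 10 ^ 10) := by gcongr
    _ ≤ 1 / 1000 := by norm_num

lemma lower {q z z' : ℂ} (hq : ‖q‖ ≤ 1) (hqq : ‖q - qa‖ ≤ 4 / 10 ^ 10)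
    (hz : ‖z - za‖ ≤ 9 / 10 ^ 7) (hz' : ‖z' - za‖ ≤ 9 / 10 ^ 7) :
    ‖z - z'‖ ≤ ‖P q z - P q z'‖ := by
  have h1 := approx hq hqq hz hz'
  have h2 : ‖cc * (z - z')‖ ≤ ‖P q z - P q z'‖ + ‖P q z - P q z' - cc * (z - z')‖ := by
    have h3 : cc * (z - z') = (P q z - P q z') - (P q z - P q z' - cc * (z - z')) := by ring
    rw [h3]
    simpa using norm_sub_le (P q z - P q z') (P q z - P q z' - cc * (z - z'))
  rw [norm_mul] at h2
  have h4 := cc_ge
  have h5 := norm_nonneg (z - z')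
  nlinarith

lemma exists_zero {q : ℂ} (hq : ‖q‖ ≤ 1) (hqq : ‖q - qa‖ ≤ 4 / 10 ^ 10) :
    ∃ z : ℂ, ‖z - za‖ ≤ 9 / 10 ^ 7 ∧ P q z = 0 := by
  set T : ℂ → ℂ := fun z => z - P q z / cc with hT
  have hcc := cc_ge
  have hcpos : (0 : ℝ) < ‖cc‖ := by linarith
  have hlip : ∀ z z' : ℂ, ‖z - za‖ ≤ 9 / 10 ^ 7 → ‖z' - za‖ ≤ 9 / 10 ^ 7 →
      ‖T z - T z'‖ ≤ 1 / 2 * ‖z - z'‖ := by
    intro z z' hz hz'
    have h1 : T z - T z' = -(P q z - P q z' - cc * (z - z')) / cc := by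
      rw [hT]
      field_simp [cc_ne]
      ring
    rw [h1, norm_div, norm_neg, div_le_iff₀ hcpos]
    have h2 := approx hq hqq hz hz'
    have h3 := norm_nonneg (z - z')
    nlinarith
  have hbase : ‖T za - za‖ ≤ 1 / 2 * (9 / 10 ^ 7) := by
    have h1 : T za - za = -(P q za / cc) := by rw [hT]; ring
    rw [h1, norm_neg, norm_div, div_le_iff₀ hcpos]
    have h2 : ‖P q za - P qa za‖ ≤ 840 * (‖q - qa‖ + ‖za - za‖) :=
      Phi_lip wt_one hq (norm_za.trans (by norm_num)) norm_qa.le (norm_za.trans (by norm_num))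
    rw [sub_self, norm_zero, add_zero] at h2
    have h3 := P_qa_za
    have h4 : ‖P q za‖ ≤ ‖P q za - P qa za‖ + ‖P qa za‖ := by
      have : P q za = (P q za - P qa za) + P qa za := by ring
      calc ‖P q za‖ = ‖(P q za - P qa za) + P qa za‖ := by rw [← this]
        _ ≤ _ := norm_add_le _ _
    have h5 : 840 * ‖q - qa‖ ≤ 840 * (4 / 10 ^ 10) := by gcongr
    have h6 : (840 : ℝ) * (4 / 10 ^ 10) + 3 / 10 ^ 15 ≤ 1 / 2 * (9 / 10 ^ 7) * (129 / 100) := by
      norm_num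
    have h7 : (1 / 2 * (9 / 10 ^ 7) * (129 / 100) : ℝ) ≤ 1 / 2 * (9 / 10 ^ 7) * ‖cc‖ := by
      gcongr
    linarith
  have hmaps : Set.MapsTo T (Metric.closedBall za (9 / 10 ^ 7)) (Metric.closedBall za (9 / 10 ^ 7)) := by
    intro z hz
    rw [mem_closedBall_iff_norm] at hz ⊢
    have h1 : T z - za = (T z - T za) + (T za - za) := by ring
    rw [h1]
    refine (norm_add_le _ _).trans ?_
    have h2 := hlip z za hz (by simp; norm_num)
    linarith
  have hcontr : ContractingWith (1 / 2) (hmaps.restrict T _ _) := by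
    refine ⟨by norm_num, LipschitzWith.of_dist_le_mul fun x y => ?_⟩
    have hx := mem_closedBall_iff_norm.mp x.2
    have hy := mem_closedBall_iff_norm.mp y.2
    have h1 := hlip x y hx hy
    rw [Subtype.dist_eq, Subtype.dist_eq, dist_eq_norm, dist_eq_norm]
    simpa using h1
  obtain ⟨z, hz, hfix, -, -⟩ := hcontr.exists_fixedPoint' (s := Metric.closedBall za (9 / 10 ^ 7))
    (Metric.isClosed_closedBall.isComplete) hmaps (x := za)
    (Metric.mem_closedBall_self (by norm_num)) (edist_ne_top _ _)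
  refine ⟨z, mem_closedBall_iff_norm.mp hz, ?_⟩
  have h1 : z - P q z / cc = z := hfix
  have h2 : P q z / cc = 0 := by
    have : z - (z - P q z / cc) = 0 := by rw [h1, sub_self]
    simpa using this
  exact (div_eq_zero_iff.mp h2).resolve_right cc_ne

/-! ### Signs at the end points -/

lemma cross_diff {A B A' B' : ℂ} {ε : ℝ} (hε : ε ≤ 1) (hA : ‖A - A'‖ ≤ ε) (hB : ‖B - B'‖ ≤ ε)
    (hA' : ‖A'‖ ≤ 1) (hB' : ‖B'‖ ≤ 3) :
    |(A * (starRingEnd ℂ) B).im - (A' * (starRingEnd ℂ) B').im| ≤ 5 * ε := by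
  have hε0 : 0 ≤ ε := (norm_nonneg _).trans hA
  rw [← Complex.sub_im]
  refine (Complex.abs_im_le_norm _).trans ?_
  have h1 : A * (starRingEnd ℂ) B - A' * (starRingEnd ℂ) B' =
      (A - A') * (starRingEnd ℂ) B + A' * (starRingEnd ℂ) (B - B') := by
    rw [map_sub]; ring
  rw [h1]
  refine (norm_add_le _ _).trans ?_
  rw [norm_mul, norm_mul, Complex.norm_conj, Complex.norm_conj]
  have h2 : ‖B‖ ≤ 4 := by
    have : B = (B - B') + B' := by ring
    rw [this]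
    exact (norm_add_le _ _).trans (by linarith)
  calc ‖A - A'‖ * ‖B‖ + ‖A'‖ * ‖B - B'‖ ≤ ε * 4 + 1 * ε := by gcongr
    _ = 5 * ε := by ring

lemma Phi_near {w : ℕ → ℕ} (hw : Wt w) {q z z' : ℂ} (hq : ‖q‖ ≤ 1) (hz : ‖z‖ ≤ 1) (hz' : ‖z'‖ ≤ 1)
    (h : ‖z - z'‖ ≤ 3 / 10 ^ 15) :
    ‖Phi w q z - ∑ m ∈ Finset.range 22, term w q z' m‖ ≤ 3 / 10 ^ 12 := by
  have h1 : ‖Phi w q z - Phi w q z'‖ ≤ 840 * (‖q - q‖ + ‖z - z'‖) := Phi_lip hw hq hz hq hz'
  rw [sub_self, norm_zero, zero_add] at h1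
  have h2 := Phi_tail hw hq hz'
  have h3 : Phi w q z - ∑ m ∈ Finset.range 22, term w q z' m = (Phi w q z - Phi w q z') +
      (Phi w q z' - ∑ m ∈ Finset.range 22, term w q z' m) := by ring
  rw [h3]
  refine (norm_add_le _ _).trans ?_
  have h4 : 840 * ‖z - z'‖ ≤ 840 * (3 / 10 ^ 15) := by gcongr
  have h5 : (840 : ℝ) * (3 / 10 ^ 15) + 1 / 10 ^ 15 ≤ 3 / 10 ^ 12 := by norm_num
  linarith

/-- The function whose zero is sought. -/
noncomputable def GG (q z : ℂ) : ℝ := (Phi tri q z * (starRingEnd ℂ) (Phi (fun m => m) q z)).im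

lemma GG_a {z : ℂ} (hz : ‖z - za‖ ≤ 9 / 10 ^ 7) (h0 : P qa z = 0) : GG qa z < 0 := by
  have h1 := lower norm_qa.le (by simp; norm_num) hz (z' := za) (by simp; norm_num)
  rw [h0, zero_sub, norm_neg] at h1
  have h2 := h1.trans P_qa_za
  have hza : ‖za‖ ≤ 1 := norm_za.trans (by norm_num)
  have hA := Phi_near wt_tri norm_qa.le (norm_le_of_near hz) hza h2
  have hB := Phi_near wt_id norm_qa.le (norm_le_of_near hz) hza h2
  have h := chk1
  simp only [Bool.and_eq_true] at h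
  obtain ⟨⟨⟨⟨-, c2⟩, c3⟩, -⟩, c5⟩ := h
  have pA := hor_den_pos tri Q1 Z1 c1_pos d0_pos 0 22
  have pB := hor_den_pos (fun m => m) Q1 Z1 c1_pos d0_pos 0 22
  have eA := hor_eval tri Q1 Z1 c1_pos d0_pos 22
  have eB := hor_eval (fun m => m) Q1 Z1 c1_pos d0_pos 22
  have d2 := norm_le_of_small (by norm_num) pA c2
  have d3 := norm_le_of_small (by norm_num) pB c3
  have d5 := im_le_of_crossNeg (by norm_num) pA pB c5
  rw [← eA] at d2 d5
  rw [← eB] at d3 d5
  have key := cross_diff (by norm_num) hA hB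
    (show ‖∑ m ∈ Finset.range 22, term tri qa za m‖ ≤ 1 from
      le_trans d2 (by norm_num))
    (show ‖∑ m ∈ Finset.range 22, term (fun m => m) qa za m‖ ≤ 3 from
      le_trans d3 (by norm_num))
  have key2 := (abs_le.mp key).2
  have d5' : ((∑ m ∈ Finset.range 22, term tri qa za m) *
    (starRingEnd ℂ) (∑ m ∈ Finset.range 22, term (fun m => m) qa za m)).im ≤
      -(1 / ((2 * 10 ^ 10 : ℕ) : ℝ)) := d5
  have num : (5 : ℝ) * (3 / 10 ^ 12) < 1 / ((2 * 10 ^ 10 : ℕ) : ℝ) := by norm_num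
  unfold GG
  linarith

lemma GG_b {z : ℂ} (hz : ‖z - za‖ ≤ 9 / 10 ^ 7) (h0 : P qb z = 0)
    (hqb : ‖qb - qa‖ ≤ 4 / 10 ^ 10) : 0 < GG qb z := by
  have h1 := lower norm_qb.le hqb hz (z' := zb) (zb_sub_za.trans (by norm_num))
  rw [h0, zero_sub, norm_neg] at h1
  have h2 := h1.trans P_qb_zb
  have hzb : ‖zb‖ ≤ 1 := norm_zb.trans (by norm_num)
  have hA := Phi_near wt_tri norm_qb.le (norm_le_of_near hz) hzb h2
  have hB := Phi_near wt_id norm_qb.le (norm_le_of_near hz) hzb h2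
  have h := chk2
  simp only [Bool.and_eq_true] at h
  obtain ⟨⟨⟨-, k2⟩, k3⟩, k5⟩ := h
  have pA := hor_den_pos tri Q2 Z2 c2_pos d0_pos 0 22
  have pB := hor_den_pos (fun m => m) Q2 Z2 c2_pos d0_pos 0 22
  have eA := hor_eval tri Q2 Z2 c2_pos d0_pos 22
  have eB := hor_eval (fun m => m) Q2 Z2 c2_pos d0_pos 22
  have d2 := norm_le_of_small (by norm_num) pA k2
  have d3 := norm_le_of_small (by norm_num) pB k3
  have d5 := im_ge_of_crossPos (by norm_num) pA pB k5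
  rw [← eA] at d2 d5
  rw [← eB] at d3 d5
  have key := cross_diff (by norm_num) hA hB
    (show ‖∑ m ∈ Finset.range 22, term tri qb zb m‖ ≤ 1 from
      le_trans d2 (by norm_num))
    (show ‖∑ m ∈ Finset.range 22, term (fun m => m) qb zb m‖ ≤ 3 from
      le_trans d3 (by norm_num))
  have key2 := (abs_le.mp key).1
  have d5' : (1 / ((2 * 10 ^ 10 : ℕ) : ℝ)) ≤ ((∑ m ∈ Finset.range 22, term tri qb zb m) *
    (starRingEnd ℂ) (∑ m ∈ Finset.range 22, term (fun m => m) qb zb m)).im := d5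
  have num : (5 : ℝ) * (3 / 10 ^ 12) < 1 / ((2 * 10 ^ 10 : ℕ) : ℝ) := by norm_num
  unfold GG
  linarith

/-! ### Conclusion -/

lemma s1_le_s2 : s1 ≤ s2 := by unfold s1 s2; norm_num

lemma s1_ge : 5 / 2 ≤ s1 := by unfold s1; norm_num

lemma qs_near {s : ℝ} (hs : s ∈ Set.Icc s1 s2) : ‖qs s - qa‖ ≤ 4 / 10 ^ 10 := by
  have h1 : qa = qs s1 := qs_s1.symm
  rw [h1]
  refine (qs_dist (s1_ge.trans hs.1) s1_ge).trans ?_
  rw [abs_of_nonneg (by linarith [hs.1])]
  have h2 : s - s1 ≤ 1 / 10 ^ 9 := by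
    have h3 : s2 - s1 ≤ 1 / 10 ^ 9 := by unfold s1 s2; norm_num
    linarith [hs.2]
  have h4 : (1 / 10 ^ 9 : ℝ) / 3 ≤ 4 / 10 ^ 10 := by norm_num
  linarith

theorem exists_critical : CriticalPairExists := by
  have hex : ∀ s : ℝ, ∃ z : ℂ, s ∈ Set.Icc s1 s2 → (‖z - za‖ ≤ 9 / 10 ^ 7 ∧ P (qs s) z = 0) := by
    intro s
    by_cases hs : s ∈ Set.Icc s1 s2
    · obtain ⟨z, hz, hz0⟩ := exists_zero (norm_qs s).le (qs_near hs)
      exact ⟨z, fun _ => ⟨hz, hz0⟩⟩
    · exact ⟨0, fun h => absurd h hs⟩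
  choose Z hZ using hex
  have hZlip : ∀ s ∈ Set.Icc s1 s2, ∀ s' ∈ Set.Icc s1 s2, ‖Z s - Z s'‖ ≤ 280 * |s - s'| := by
    intro s hs s' hs'
    obtain ⟨h1, h2⟩ := hZ s hs
    obtain ⟨h1', h2'⟩ := hZ s' hs'
    have h3 := lower (norm_qs s).le (qs_near hs) h1 h1'
    rw [h2, zero_sub, norm_neg] at h3
    have h4 : ‖P (qs s) (Z s') - P (qs s') (Z s')‖ ≤
        840 * (‖qs s - qs s'‖ + ‖Z s' - Z s'‖) :=
      Phi_lip wt_one (norm_qs s).le (norm_le_of_near h1') (norm_qs s').le (norm_le_of_near h1')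
    rw [h2', sub_zero, sub_self, norm_zero, add_zero] at h4
    have h5 := qs_dist (s1_ge.trans hs.1) (s1_ge.trans hs'.1)
    linarith
  have hcont : ∀ w : ℕ → ℕ, Wt w →
      ContinuousOn (fun s => Phi w (qs s) (Z s)) (Set.Icc s1 s2) := by
    intro w hw
    have hl : LipschitzOnWith 300000 (fun s => Phi w (qs s) (Z s)) (Set.Icc s1 s2) := by
      refine LipschitzOnWith.of_dist_le_mul fun s hs s' hs' => ?_
      rw [dist_eq_norm, Real.dist_eq]
      have h1 := Phi_lip hw (norm_qs s).le (norm_le_of_near (hZ s hs).1) (norm_qs s').le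
        (norm_le_of_near (hZ s' hs').1)
      have h2 := hZlip s hs s' hs'
      have h3 := qs_dist (s1_ge.trans hs.1) (s1_ge.trans hs'.1)
      have h4 := abs_nonneg (s - s')
      have h5 : ((300000 : NNReal) : ℝ) = 300000 := by norm_num
      rw [h5]
      linarith
    exact hl.continuousOn
  have hG : ContinuousOn (fun s => GG (qs s) (Z s)) (Set.Icc s1 s2) := by
    unfold GG
    exact Complex.continuous_im.comp_continuousOn
      ((hcont tri wt_tri).mul (Complex.continuous_conj.comp_continuousOn (hcont _ wt_id)))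
  have hm1 : s1 ∈ Set.Icc s1 s2 := ⟨le_rfl, s1_le_s2⟩
  have hm2 : s2 ∈ Set.Icc s1 s2 := ⟨s1_le_s2, le_rfl⟩
  have hneg : GG (qs s1) (Z s1) < 0 := by
    obtain ⟨h1, h2⟩ := hZ s1 hm1
    rw [qs_s1] at h2 ⊢
    exact GG_a h1 h2
  have hpos : 0 < GG (qs s2) (Z s2) := by
    obtain ⟨h1, h2⟩ := hZ s2 hm2
    have h3 := qs_near hm2
    rw [qs_s2] at h2 h3 ⊢
    exact GG_b h1 h2 h3
  obtain ⟨s, hs, hs0⟩ := intermediate_value_Icc s1_le_s2 hG ⟨hneg.le, hpos.le⟩
  obtain ⟨h1, h2⟩ := hZ s hs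
  refine ⟨Z s, qs s, norm_qs s, ?_, ?_, ?_, ?_⟩
  · have h3 : Z s - z0 = (Z s - za) + (za - z0) := by ring
    rw [h3]
    refine (norm_add_le _ _).trans ?_
    have h4 := za_sub_z0
    have h5 : (9 / 10 ^ 7 : ℝ) + 1 / 10 ^ 9 ≤ 1 / 10 ^ 6 := by norm_num
    linarith
  · have h3 : qs s - q0 = (qs s - qa) + (qs s1 - q0) := by
      have : qa = qs s1 := qs_s1.symm
      rw [this]; ring
    rw [h3]
    refine (norm_add_le _ _).trans ?_
    have h4 := qs_near hs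
    have h5 := qs_s1_sub_q0
    have h6 : (4 / 10 ^ 10 : ℝ) + 1 / 10 ^ 9 ≤ 1 / 10 ^ 6 := by norm_num
    linarith
  · rw [phi_eq]
    exact h2
  · rw [sumA_eq (norm_qs s).le (norm_le_of_near h1), sumB_eq (norm_qs s).le (norm_le_of_near h1),
      map_neg, neg_mul_neg]
    exact hs0

end Pool.Agent.H86.W
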