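import Pool.Agent.H81.W.Interface

set_option autoImplicit false

/-!
# Lipschitz bounds for the series `∑ w m q^(m(m-1)/2) z^m / m!` (module A for MP_7ded08_an)
-/

namespace Pool.Agent.H86.W

open Pool.Agent.H81.W

/-- Majorant. -/
noncomputable def bb (m : ℕ) : ℝ := ((m : ℝ) + 1) ^ 4 / (Nat.factorial m : ℝ)

lemma bb_nat (m : ℕ) : (m + 1) ^ 4 * 2 ^ m ≤ 420 * m.factorial := by
  rcases lt_or_ge m 4 with h | h
  · interval_cases m <;> decide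
  · induction m, h using Nat.le_induction with
    | base => decide
    | succ k hk ih =>
      obtain ⟨j, rfl⟩ := Nat.exists_eq_add_of_le hk
      rw [Nat.factorial_succ, pow_succ]
      have h1 : (4 + j + 1 + 1) ^ 4 * 2 ≤ (4 + j + 1) * (4 + j + 1) ^ 4 := by
        ring_nf
        nlinarith [Nat.zero_le j, Nat.zero_le (j ^ 2), Nat.zero_le (j ^ 3), Nat.zero_le (j ^ 4),
          Nat.zero_le (j ^ 5)]
      calc (4 + j + 1 + 1) ^ 4 * (2 ^ (4 + j) * 2) = ((4 + j + 1 + 1) ^ 4 * 2) * 2 ^ (4 + j) := by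
            ring
        _ ≤ ((4 + j + 1) * (4 + j + 1) ^ 4) * 2 ^ (4 + j) := Nat.mul_le_mul_right _ h1
        _ = (4 + j + 1) * ((4 + j + 1) ^ 4 * 2 ^ (4 + j)) := by ring
        _ ≤ (4 + j + 1) * (420 * (4 + j).factorial) := Nat.mul_le_mul_left _ ih
        _ = 420 * ((4 + j + 1) * (4 + j).factorial) := by ring

lemma bb_nonneg (m : ℕ) : 0 ≤ bb m := by
  unfold bb
  positivity

lemma bb_le (m : ℕ) : bb m ≤ 420 * (1 / 2) ^ m := by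
  unfold bb
  have h := bb_nat m
  have h1 : (0 : ℝ) < m.factorial := by positivity
  rw [div_le_iff₀ h1]
  have h2 : (((m + 1) ^ 4 * 2 ^ m : ℕ) : ℝ) ≤ ((420 * m.factorial : ℕ) : ℝ) := by exact_mod_cast h
  push_cast at h2
  have h3 : (0 : ℝ) < (1 / 2) ^ m := by positivity
  have h4 : (2 : ℝ) ^ m * (1 / 2) ^ m = 1 := by rw [← mul_pow]; norm_num
  calc ((m : ℝ) + 1) ^ 4 = (((m : ℝ) + 1) ^ 4 * 2 ^ m) * (1 / 2) ^ m := by
        rw [mul_assoc, h4, mul_one]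
    _ ≤ (420 * (m.factorial : ℝ)) * (1 / 2) ^ m := by gcongr
    _ = 420 * (1 / 2) ^ m * (m.factorial : ℝ) := by ring

lemma hasSum_geo : HasSum (fun m : ℕ => 420 * (1 / 2 : ℝ) ^ m) 840 := by
  have h := (hasSum_geometric_of_lt_one (r := (1 / 2 : ℝ)) (by norm_num)
    (by norm_num)).mul_left (420 : ℝ)
  have h2 : (840 : ℝ) = 420 * (1 - 1 / 2)⁻¹ := by norm_num
  rw [h2]
  exact h

/-- Series dominated by `ε * bb m`. -/
lemma summable_of_bb {f : ℕ → ℂ} {ε : ℝ} (hε : 0 ≤ ε) (h : ∀ m, ‖f m‖ ≤ ε * bb m) :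
    Summable f := by
  refine Summable.of_norm_bounded (g := fun m => ε * (420 * (1 / 2 : ℝ) ^ m))
    (hasSum_geo.summable.mul_left ε) fun m => (h m).trans ?_
  exact mul_le_mul_of_nonneg_left (bb_le m) hε

lemma norm_tsum_le_bb {f : ℕ → ℂ} {ε : ℝ} (hε : 0 ≤ ε) (h : ∀ m, ‖f m‖ ≤ ε * bb m) :
    ‖∑' m, f m‖ ≤ 840 * ε := by
  have h1 := (hasSum_geo.mul_left ε)
  rw [mul_comm 840 ε]
  refine tsum_of_norm_bounded h1 fun m => (h m).trans ?_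
  exact mul_le_mul_of_nonneg_left (bb_le m) hε

/-- Triangular exponent. -/
def tri (m : ℕ) : ℕ := m * (m - 1) / 2

lemma tri_succ (m : ℕ) : tri (m + 1) = tri m + m := by
  unfold tri
  have h := Nat.triangle_succ m
  exact h

lemma tri_le (m : ℕ) : tri m ≤ m ^ 2 := by
  unfold tri
  calc m * (m - 1) / 2 ≤ m * (m - 1) := Nat.div_le_self _ _
    _ ≤ m * m := Nat.mul_le_mul_left _ (Nat.sub_le _ _)
    _ = m ^ 2 := by ring

/-- General term. -/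
noncomputable def term (w : ℕ → ℕ) (q z : ℂ) (m : ℕ) : ℂ :=
  (w m : ℂ) * (q ^ tri m * z ^ m / (Nat.factorial m : ℂ))

/-- The weighted series. -/
noncomputable def Phi (w : ℕ → ℕ) (q z : ℂ) : ℂ := ∑' m, term w q z m

/-- Admissible weights. -/
def Wt (w : ℕ → ℕ) : Prop := ∀ m, w m ≤ (m + 1) ^ 2

lemma wt_one : Wt fun _ => 1 := fun m => Nat.one_le_pow _ _ (Nat.succ_pos m)
lemma wt_id : Wt fun m => m := fun m => by nlinarith
lemma wt_tri : Wt tri := fun m => (tri_le m).trans (Nat.pow_le_pow_left (Nat.le_succ m) 2)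

variable {w : ℕ → ℕ}

lemma Wt.real (hw : Wt w) (m : ℕ) : (w m : ℝ) ≤ ((m : ℝ) + 1) ^ 2 := by
  have := hw m
  exact_mod_cast this

lemma norm_term_le (hw : Wt w) {q z : ℂ} (hq : ‖q‖ ≤ 1) (hz : ‖z‖ ≤ 1) (m : ℕ) :
    ‖term w q z m‖ ≤ 1 * bb m := by
  unfold term bb
  rw [norm_mul, norm_div, norm_mul, norm_pow, norm_pow, Complex.norm_natCast, Complex.norm_natCast,
    one_mul]
  have h1 : ‖q‖ ^ tri m ≤ 1 := pow_le_one₀ (norm_nonneg _) hq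
  have h2 : ‖z‖ ^ m ≤ 1 := pow_le_one₀ (norm_nonneg _) hz
  have h3 : ‖q‖ ^ tri m * ‖z‖ ^ m ≤ 1 := mul_le_one₀ h1 (by positivity) h2
  have h4 := hw.real m
  have h5 : ((m : ℝ) + 1) ^ 2 ≤ ((m : ℝ) + 1) ^ 4 :=
    pow_le_pow_right₀ (by linarith [(Nat.cast_nonneg m : (0 : ℝ) ≤ m)]) (by norm_num)
  have h6 : (0 : ℝ) < m.factorial := by positivity
  rw [← mul_div_assoc]
  gcongr
  calc (w m : ℝ) * (‖q‖ ^ tri m * ‖z‖ ^ m) ≤ ((m : ℝ) + 1) ^ 2 * 1 := by gcongr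
    _ ≤ ((m : ℝ) + 1) ^ 4 := by linarith

lemma summable_term (hw : Wt w) {q z : ℂ} (hq : ‖q‖ ≤ 1) (hz : ‖z‖ ≤ 1) :
    Summable (term w q z) :=
  summable_of_bb zero_le_one (norm_term_le hw hq hz)

lemma norm_Phi_le (hw : Wt w) {q z : ℂ} (hq : ‖q‖ ≤ 1) (hz : ‖z‖ ≤ 1) : ‖Phi w q z‖ ≤ 840 := by
  have := norm_tsum_le_bb zero_le_one (norm_term_le hw hq hz)
  simpa [Phi] using this

lemma norm_pow_sub_pow_le {z z' : ℂ} (hz : ‖z‖ ≤ 1) (hz' : ‖z'‖ ≤ 1) (n : ℕ) :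
    ‖z ^ n - z' ^ n‖ ≤ n * ‖z - z'‖ := by
  induction n with
  | zero => simp
  | succ n ih =>
    have h1 : z ^ (n + 1) - z' ^ (n + 1) = z * (z ^ n - z' ^ n) + z' ^ n * (z - z') := by ring
    rw [h1]
    refine (norm_add_le _ _).trans ?_
    rw [norm_mul, norm_mul, norm_pow]
    have h2 : ‖z'‖ ^ n ≤ 1 := pow_le_one₀ (norm_nonneg _) hz'
    have h3 := norm_nonneg (z - z')
    have h4 := norm_nonneg (z ^ n - z' ^ n)
    push_cast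
    nlinarith [norm_nonneg z]

/-- Joint Lipschitz bound. -/
lemma Phi_lip (hw : Wt w) {q z q' z' : ℂ} (hq : ‖q‖ ≤ 1) (hz : ‖z‖ ≤ 1) (hq' : ‖q'‖ ≤ 1)
    (hz' : ‖z'‖ ≤ 1) : ‖Phi w q z - Phi w q' z'‖ ≤ 840 * (‖q - q'‖ + ‖z - z'‖) := by
  unfold Phi
  rw [← (summable_term hw hq hz).tsum_sub (summable_term hw hq' hz')]
  refine norm_tsum_le_bb (by positivity) fun m => ?_
  have h1 : term w q z m - term w q' z' m =
      (w m : ℂ) * (((q ^ tri m - q' ^ tri m) * z ^ m + q' ^ tri m * (z ^ m - z' ^ m)) /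
        (Nat.factorial m : ℂ)) := by
    unfold term
    ring
  rw [h1, norm_mul, norm_div, Complex.norm_natCast, Complex.norm_natCast]
  have h2 : ‖(q ^ tri m - q' ^ tri m) * z ^ m + q' ^ tri m * (z ^ m - z' ^ m)‖ ≤
      (m : ℝ) ^ 2 * ‖q - q'‖ + m * ‖z - z'‖ := by
    refine (norm_add_le _ _).trans ?_
    rw [norm_mul, norm_mul, norm_pow, norm_pow]
    have h3 := norm_pow_sub_pow_le hq hq' (tri m)
    have h4 := norm_pow_sub_pow_le hz hz' m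
    have h5 : ‖z‖ ^ m ≤ 1 := pow_le_one₀ (norm_nonneg _) hz
    have h6 : ‖q'‖ ^ tri m ≤ 1 := pow_le_one₀ (norm_nonneg _) hq'
    have h7 : (tri m : ℝ) ≤ (m : ℝ) ^ 2 := by exact_mod_cast tri_le m
    have h8 := norm_nonneg (q - q')
    have h9 := norm_nonneg (z - z')
    have h10 := norm_nonneg (q ^ tri m - q' ^ tri m)
    have h11 := norm_nonneg (z ^ m - z' ^ m)
    have h12 : ‖q ^ tri m - q' ^ tri m‖ * ‖z‖ ^ m ≤ (m : ℝ) ^ 2 * ‖q - q'‖ :=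
      calc ‖q ^ tri m - q' ^ tri m‖ * ‖z‖ ^ m ≤ ‖q ^ tri m - q' ^ tri m‖ * 1 := by gcongr
        _ ≤ (tri m : ℝ) * ‖q - q'‖ := by linarith
        _ ≤ (m : ℝ) ^ 2 * ‖q - q'‖ := by gcongr
    have h13 : ‖q'‖ ^ tri m * ‖z ^ m - z' ^ m‖ ≤ m * ‖z - z'‖ :=
      calc ‖q'‖ ^ tri m * ‖z ^ m - z' ^ m‖ ≤ 1 * ‖z ^ m - z' ^ m‖ := by gcongr
        _ ≤ m * ‖z - z'‖ := by linarith
    linarith
  have h14 := hw.real m
  have hm : (0 : ℝ) ≤ m := Nat.cast_nonneg m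
  unfold bb
  rw [← mul_div_assoc, ← mul_div_assoc]
  apply div_le_div_of_nonneg_right _ (Nat.cast_nonneg _)
  have h8 := norm_nonneg (q - q')
  have h9 := norm_nonneg (z - z')
  calc (w m : ℝ) * ‖(q ^ tri m - q' ^ tri m) * z ^ m + q' ^ tri m * (z ^ m - z' ^ m)‖
      ≤ ((m : ℝ) + 1) ^ 2 * ((m : ℝ) ^ 2 * ‖q - q'‖ + m * ‖z - z'‖) := by gcongr
    _ ≤ ((m : ℝ) + 1) ^ 2 * (((m : ℝ) + 1) ^ 2 * ‖q - q'‖ + ((m : ℝ) + 1) ^ 2 * ‖z - z'‖) := by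
      gcongr
      · linarith
      · nlinarith
    _ = (‖q - q'‖ + ‖z - z'‖) * ((m : ℝ) + 1) ^ 4 := by ring

/-- The derivative of `Phi (fun _ => 1) q` at `z`. -/
noncomputable def dphi (q z : ℂ) : ℂ :=
  ∑' m : ℕ, (q ^ tri m * ((m : ℂ) * z ^ (m - 1)) / (Nat.factorial m : ℂ))

lemma norm_pow_taylor {z z' z1 : ℂ} {r : ℝ} (hz : ‖z‖ ≤ 1) (hz' : ‖z'‖ ≤ 1) (hz1 : ‖z1‖ ≤ 1)
    (hr : ‖z - z1‖ ≤ r) (hr' : ‖z' - z1‖ ≤ r) (n : ℕ) :
    ‖z ^ n - z' ^ n - (n : ℂ) * z1 ^ (n - 1) * (z - z')‖ ≤ (n : ℝ) ^ 2 * r * ‖z - z'‖ := by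
  have hr0 : 0 ≤ r := (norm_nonneg _).trans hr
  induction n with
  | zero => simp
  | succ n ih =>
    have h1 : z ^ (n + 1) - z' ^ (n + 1) - ((n + 1 : ℕ) : ℂ) * z1 ^ (n + 1 - 1) * (z - z') =
        z * (z ^ n - z' ^ n - (n : ℂ) * z1 ^ (n - 1) * (z - z')) +
        (z - z') * ((z' ^ n - z1 ^ n) + (n : ℂ) * z1 ^ (n - 1) * (z - z1)) := by
      rcases n with _ | n
      · simp
      · simp only [Nat.add_sub_cancel]
        push_cast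
        ring
    rw [h1]
    refine (norm_add_le _ _).trans ?_
    rw [norm_mul, norm_mul]
    have h2 : ‖(z' ^ n - z1 ^ n) + (n : ℂ) * z1 ^ (n - 1) * (z - z1)‖ ≤ 2 * n * r := by
      refine (norm_add_le _ _).trans ?_
      have h3 := norm_pow_sub_pow_le hz' hz1 n
      rw [norm_mul, norm_mul, norm_pow, Complex.norm_natCast]
      have h4 : ‖z1‖ ^ (n - 1) ≤ 1 := pow_le_one₀ (norm_nonneg _) hz1
      have hn : (0 : ℝ) ≤ n := Nat.cast_nonneg n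
      have h5 : (n : ℝ) * ‖z1‖ ^ (n - 1) * ‖z - z1‖ ≤ n * 1 * r := by gcongr
      have h6 : (n : ℝ) * ‖z' - z1‖ ≤ n * r := by gcongr
      linarith
    have h7 := norm_nonneg (z - z')
    have h8 : ‖z‖ * ‖z ^ n - z' ^ n - (n : ℂ) * z1 ^ (n - 1) * (z - z')‖ ≤
        1 * ((n : ℝ) ^ 2 * r * ‖z - z'‖) := by gcongr
    have h9 : ‖z - z'‖ * ‖(z' ^ n - z1 ^ n) + (n : ℂ) * z1 ^ (n - 1) * (z - z1)‖ ≤
        ‖z - z'‖ * (2 * n * r) := by gcongr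
    have h10 : (0 : ℝ) ≤ r * ‖z - z'‖ := by positivity
    push_cast
    nlinarith

lemma summable_dphi {q z : ℂ} (hq : ‖q‖ ≤ 1) (hz : ‖z‖ ≤ 1) :
    Summable fun m : ℕ => (q ^ tri m * ((m : ℂ) * z ^ (m - 1)) / (Nat.factorial m : ℂ)) := by
  refine summable_of_bb zero_le_one fun m => ?_
  unfold bb
  rw [norm_div, norm_mul, norm_mul, norm_pow, norm_pow, Complex.norm_natCast,
    Complex.norm_natCast, one_mul]
  have h1 : ‖q‖ ^ tri m ≤ 1 := pow_le_one₀ (norm_nonneg _) hq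
  have h2 : ‖z‖ ^ (m - 1) ≤ 1 := pow_le_one₀ (norm_nonneg _) hz
  have hm : (0 : ℝ) ≤ m := Nat.cast_nonneg m
  gcongr
  calc ‖q‖ ^ tri m * ((m : ℝ) * ‖z‖ ^ (m - 1)) ≤ 1 * (m * 1) := by gcongr
    _ ≤ ((m : ℝ) + 1) ^ 1 := by linarith
    _ ≤ ((m : ℝ) + 1) ^ 4 := pow_le_pow_right₀ (by linarith) (by norm_num)

/-- Quantitative linear approximation. -/
lemma Phi_approx {q z z' q1 z1 : ℂ} {r : ℝ} (hq : ‖q‖ ≤ 1) (hz : ‖z‖ ≤ 1) (hz' : ‖z'‖ ≤ 1)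
    (hq1 : ‖q1‖ ≤ 1) (hz1 : ‖z1‖ ≤ 1) (hr : ‖z - z1‖ ≤ r) (hr' : ‖z' - z1‖ ≤ r) :
    ‖Phi (fun _ => 1) q z - Phi (fun _ => 1) q z' - dphi q1 z1 * (z - z')‖ ≤
      840 * ((r + ‖q - q1‖) * ‖z - z'‖) := by
  have hr0 : 0 ≤ r := (norm_nonneg _).trans hr
  unfold Phi dphi
  rw [← (summable_term wt_one hq hz).tsum_sub (summable_term wt_one hq hz'),
    ← (summable_dphi hq1 hz1).tsum_mul_right,
    ← ((summable_term wt_one hq hz).sub (summable_term wt_one hq hz')).tsum_sub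
      ((summable_dphi hq1 hz1).mul_right _)]
  refine norm_tsum_le_bb (by positivity) fun m => ?_
  have h1 : term (fun _ => 1) q z m - term (fun _ => 1) q z' m -
      q1 ^ tri m * ((m : ℂ) * z1 ^ (m - 1)) / (Nat.factorial m : ℂ) * (z - z') =
      (q ^ tri m * (z ^ m - z' ^ m - (m : ℂ) * z1 ^ (m - 1) * (z - z')) +
        (q ^ tri m - q1 ^ tri m) * ((m : ℂ) * z1 ^ (m - 1) * (z - z'))) /
        (Nat.factorial m : ℂ) := by
    unfold term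
    push_cast
    ring
  rw [h1, norm_div, Complex.norm_natCast]
  have h2 : ‖q ^ tri m * (z ^ m - z' ^ m - (m : ℂ) * z1 ^ (m - 1) * (z - z')) +
        (q ^ tri m - q1 ^ tri m) * ((m : ℂ) * z1 ^ (m - 1) * (z - z'))‖ ≤
      (m : ℝ) ^ 2 * r * ‖z - z'‖ + (m : ℝ) ^ 2 * ‖q - q1‖ * (m * ‖z - z'‖) := by
    refine (norm_add_le _ _).trans ?_
    rw [norm_mul, norm_mul, norm_mul, norm_mul, norm_pow, norm_pow, Complex.norm_natCast]
    have h3 := norm_pow_taylor hz hz' hz1 hr hr' m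
    have h4 := norm_pow_sub_pow_le hq hq1 (tri m)
    have h5 : ‖q‖ ^ tri m ≤ 1 := pow_le_one₀ (norm_nonneg _) hq
    have h6 : ‖z1‖ ^ (m - 1) ≤ 1 := pow_le_one₀ (norm_nonneg _) hz1
    have h7 : (tri m : ℝ) ≤ (m : ℝ) ^ 2 := by exact_mod_cast tri_le m
    have h8 := norm_nonneg (z - z')
    have h9 := norm_nonneg (q - q1)
    have hm : (0 : ℝ) ≤ m := Nat.cast_nonneg m
    have h10 : ‖q‖ ^ tri m * ‖z ^ m - z' ^ m - (m : ℂ) * z1 ^ (m - 1) * (z - z')‖ ≤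
        1 * ((m : ℝ) ^ 2 * r * ‖z - z'‖) := by gcongr
    have h11 : ‖q ^ tri m - q1 ^ tri m‖ ≤ (m : ℝ) ^ 2 * ‖q - q1‖ :=
      h4.trans (by gcongr)
    have h12 : ‖q ^ tri m - q1 ^ tri m‖ * ((m : ℝ) * ‖z1‖ ^ (m - 1) * ‖z - z'‖) ≤
        (m : ℝ) ^ 2 * ‖q - q1‖ * (m * 1 * ‖z - z'‖) := by gcongr
    linarith
  have hm : (0 : ℝ) ≤ m := Nat.cast_nonneg m
  unfold bb
  rw [← mul_div_assoc]
  gcongr
  have h8 := norm_nonneg (z - z')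
  have h9 := norm_nonneg (q - q1)
  calc _ ≤ (m : ℝ) ^ 2 * r * ‖z - z'‖ + (m : ℝ) ^ 2 * ‖q - q1‖ * (m * ‖z - z'‖) := h2
    _ = (m : ℝ) ^ 2 * (r * ‖z - z'‖) + (m : ℝ) ^ 3 * (‖q - q1‖ * ‖z - z'‖) := by ring
    _ ≤ ((m : ℝ) + 1) ^ 4 * (r * ‖z - z'‖) + ((m : ℝ) + 1) ^ 4 * (‖q - q1‖ * ‖z - z'‖) := by
      gcongr
      · calc (m : ℝ) ^ 2 ≤ ((m : ℝ) + 1) ^ 2 := by gcongr; linarith
          _ ≤ ((m : ℝ) + 1) ^ 4 := pow_le_pow_right₀ (by linarith) (by norm_num)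
      · calc (m : ℝ) ^ 3 ≤ ((m : ℝ) + 1) ^ 3 := by gcongr; linarith
          _ ≤ ((m : ℝ) + 1) ^ 4 := pow_le_pow_right₀ (by linarith) (by norm_num)
    _ = (r + ‖q - q1‖) * ‖z - z'‖ * ((m : ℝ) + 1) ^ 4 := by ring

/-- `z dphi = Phi id`. -/
lemma dphi_mul {q z : ℂ} (hq : ‖q‖ ≤ 1) (hz : ‖z‖ ≤ 1) : dphi q z * z = Phi (fun m => m) q z := by
  unfold dphi Phi
  rw [← (summable_dphi hq hz).tsum_mul_right]
  congr 1
  funext m
  unfold term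
  rcases m with _ | m
  · simp
  · simp only [Nat.add_sub_cancel]
    rw [pow_succ]
    ring

/-! ### Tails -/

lemma tail_nat (m : ℕ) : (m + 23) ^ 4 * 2 ^ m * Nat.factorial 22 ≤ 23 ^ 4 * (m + 22).factorial := by
  induction m with
  | zero => simp
  | succ k ih =>
    rw [show k + 1 + 22 = (k + 22) + 1 by ring, Nat.factorial_succ, pow_succ]
    have h1 : (k + 1 + 23) ^ 4 * 2 ≤ (k + 22 + 1) * (k + 23) ^ 4 := by
      ring_nf
      nlinarith [Nat.zero_le k, Nat.zero_le (k ^ 2), Nat.zero_le (k ^ 3), Nat.zero_le (k ^ 4),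
          Nat.zero_le (k ^ 5)]
    calc (k + 1 + 23) ^ 4 * (2 ^ k * 2) * Nat.factorial 22
        = ((k + 1 + 23) ^ 4 * 2) * (2 ^ k * Nat.factorial 22) := by ring
      _ ≤ ((k + 22 + 1) * (k + 23) ^ 4) * (2 ^ k * Nat.factorial 22) := Nat.mul_le_mul_right _ h1
      _ = (k + 22 + 1) * ((k + 23) ^ 4 * 2 ^ k * Nat.factorial 22) := by ring
      _ ≤ (k + 22 + 1) * (23 ^ 4 * (k + 22).factorial) := Nat.mul_le_mul_left _ ih
      _ = 23 ^ 4 * ((k + 22 + 1) * (k + 22).factorial) := by ring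

lemma bb_tail (m : ℕ) : bb (m + 22) ≤ (3 / 10 ^ 16) * (1 / 2) ^ m := by
  unfold bb
  have h := tail_nat m
  have h0 : (23 : ℕ) ^ 4 * 10 ^ 16 ≤ 3 * Nat.factorial 22 := by decide
  have h1 : (0 : ℝ) < (m + 22).factorial := by positivity
  rw [div_le_iff₀ h1]
  have h2 : (((m + 23) ^ 4 * 2 ^ m * Nat.factorial 22 : ℕ) : ℝ) ≤
      ((23 ^ 4 * (m + 22).factorial : ℕ) : ℝ) := by exact_mod_cast h
  have h2' : (((23 : ℕ) ^ 4 * 10 ^ 16 : ℕ) : ℝ) ≤ ((3 * Nat.factorial 22 : ℕ) : ℝ) := by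
    exact_mod_cast h0
  push_cast at h2 h2' ⊢
  have h3 : (0 : ℝ) < Nat.factorial 22 := by positivity
  have h4 : (2 : ℝ) ^ m * (1 / 2) ^ m = 1 := by rw [← mul_pow]; norm_num
  have h5 : ((m : ℝ) + 22 + 1) ^ 4 = ((m : ℝ) + 23) ^ 4 := by ring
  rw [h5]
  have h6 : ((m : ℝ) + 23) ^ 4 * Nat.factorial 22 ≤
      23 ^ 4 * (m + 22).factorial * (1 / 2) ^ m := by
    calc ((m : ℝ) + 23) ^ 4 * Nat.factorial 22 =
        ((m : ℝ) + 23) ^ 4 * 2 ^ m * Nat.factorial 22 * (1 / 2) ^ m := by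
          rw [show ((m : ℝ) + 23) ^ 4 * 2 ^ m * Nat.factorial 22 * (1 / 2) ^ m =
            ((m : ℝ) + 23) ^ 4 * Nat.factorial 22 * (2 ^ m * (1 / 2) ^ m) by ring, h4, mul_one]
      _ ≤ _ := mul_le_mul_of_nonneg_right (by linarith) (by positivity)
  have h7 : ((m : ℝ) + 23) ^ 4 * Nat.factorial 22 ≤
      (3 / 10 ^ 16 * (1 / 2) ^ m * (m + 22).factorial) * Nat.factorial 22 := by
    refine h6.trans ?_
    have h8 : (23 : ℝ) ^ 4 ≤ 3 / 10 ^ 16 * Nat.factorial 22 := by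
      rw [div_mul_eq_mul_div, le_div_iff₀ (by positivity)]
      linarith
    calc (23 : ℝ) ^ 4 * (m + 22).factorial * (1 / 2) ^ m ≤
        (3 / 10 ^ 16 * Nat.factorial 22) * (m + 22).factorial * (1 / 2) ^ m := by gcongr
      _ = _ := by ring
  exact le_of_mul_le_mul_right h7 h3

/-- Truncation error. -/
lemma Phi_tail (hw : Wt w) {q z : ℂ} (hq : ‖q‖ ≤ 1) (hz : ‖z‖ ≤ 1) :
    ‖Phi w q z - ∑ m ∈ Finset.range 22, term w q z m‖ ≤ 1 / 10 ^ 15 := by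
  have hs := summable_term hw hq hz
  unfold Phi
  rw [← hs.sum_add_tsum_nat_add 22, add_sub_cancel_left]
  have h1 : HasSum (fun m : ℕ => (3 / 10 ^ 16) * (1 / 2 : ℝ) ^ m) (3 / 10 ^ 16 * 2) := by
    have h := (hasSum_geometric_of_lt_one (r := (1 / 2 : ℝ)) (by norm_num)
      (by norm_num)).mul_left (3 / 10 ^ 16 : ℝ)
    have h2 : (3 / 10 ^ 16 * 2 : ℝ) = 3 / 10 ^ 16 * (1 - 1 / 2)⁻¹ := by norm_num
    rw [h2]
    exact h
  refine (tsum_of_norm_bounded h1 fun m => ?_).trans (by norm_num)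
  exact (norm_term_le hw hq hz _).trans (by rw [one_mul]; exact bb_tail m)

end Pool.Agent.H86.W
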